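import Pool.Agent.helper52.ED.Spec

/-! MON (project ed:): `PhV` is almost monotone along an orbit which has not yet approached `0`. -/

set_option autoImplicit false

open Complex Metric Set Filter Topology MeasureTheory
open Pool.Agent.helper98.ILF Pool.Agent.helper16.Multibrot HY

noncomputable section

namespace ED

theorem MON (hPHP : PHP_stmt) (hSPK : SPK_stmt) : MON_stmt := by
  intro n r M hn hr hM hCL c hc hdis V φ ψ b hSG y t hO i j hij hjt
  have hOj : Orb n c φ M y j :=
    ⟨fun q hq => hO.mem q (le_trans hq hjt), fun q hq => hO.stp q (lt_of_lt_of_le hq hjt),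
      fun q hq => hO.far q (lt_of_lt_of_le hq hjt)⟩
  obtain ⟨H, hUN, h0, hrel, -⟩ := hCL c hc hdis V φ ψ b hSG y j hOj i hij
  obtain ⟨hpos, hder⟩ := hPHP n c V φ ψ b M y t hSG hM hO
  have e1 := hder i j hij hjt H hUN h0 hrel
  have h0U : (0 : ℂ) ∈ UD := by simp [UD]
  have e2 : hd H 0 ≤ 1 := by
    have := hSPK.2.2.2.2.2 H hUN.dif hUN.map 0 h0U
    simpa using this
  have hpj : 0 < PhV n c φ y j := (hpos j hjt).1
  rw [e1, div_le_one (by positivity)] at e2
  exact e2

end ED
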